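import Pool.Agent.Work.MP_8625e1_nt.K.Main

/-! The Jameson-Ono sum modulo `p ^ 2` in closed form. -/

namespace Pool.Agent.Results.MP_8625e1_nt.ClosedForm

open Finset

theorem result (p : ℕ) (hp : p.Prime) (h3 : 3 < p) (S : ℚ) (B : ℤ)
    (hS : S = ∑ k ∈ range ((p - 1) / 2 + 1),
      ((2 * k).choose k : ℚ) ^ 3 * ∑ j ∈ Ioc k (2 * k), 1 / (j : ℚ))
    (hB : B = (3 * p / 7).choose (p / 7)) :
    ¬ p ∣ S.den ∧ (p : ℤ) ∣ S.num ∧
      (p % 7 = 0 ∨ p % 7 = 1 ∨ p % 7 = 2 ∨ p % 7 = 4 → (p : ℤ) ^ 2 ∣ S.num) ∧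
      (p % 7 = 3 → (p : ℤ) ^ 2 ∣ 6 * B ^ 2 * S.num + 49 * p * S.den) ∧
      (p % 7 = 5 → (p : ℤ) ^ 2 ∣ 96 * B ^ 2 * S.num + 49 * p * S.den) ∧
      (p % 7 = 6 → (p : ℤ) ^ 2 ∣ 24 * B ^ 2 * S.num + 49 * p * S.den) := by
  by_cases h7 : p = 7
  · subst h7
    have : S = 15190 / 3 := by
      rw [hS]
      simp only [Pool.Agent.Work.MP_8625e1_nt.sum_Ioc_eq _ (Nat.le_mul_of_pos_left _ two_pos)]
      norm_num [sum_range_succ, Nat.choose]
    rw [this]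
    exact ⟨by norm_num, by norm_num, fun _ => by norm_num, by norm_num, by norm_num, by norm_num⟩
  have := Fact.mk hp
  obtain ⟨h1, h2, h4⟩ := Pool.Agent.Work.MP_8625e1_nt.main h3 h7 S _ _ hS rfl rfl
  have h0 : p % 7 ≠ 0 := fun h =>
    h7 ((Nat.prime_dvd_prime_iff_eq (by norm_num) hp).1 (Nat.dvd_of_mod_eq_zero h)).symm
  refine ⟨h1, ?_, fun h => h2 (by omega), fun h => ?_, fun h => ?_, fun h => ?_⟩
  · by_cases h : p % 7 = 1 ∨ p % 7 = 2 ∨ p % 7 = 4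
    · exact (dvd_pow_self _ two_ne_zero).trans (h2 h)
    · exact (h4 (by omega)).1
  · convert (Pool.Agent.Work.MP_8625e1_nt.Kl.both h3 1 (by omega) S _ B hS rfl hB).1 using 2
    push_cast; ring
  · convert (Pool.Agent.Work.MP_8625e1_nt.Kl.both h3 16 (by omega) S _ B hS rfl hB).1 using 2
    push_cast; ring
  · convert (Pool.Agent.Work.MP_8625e1_nt.Kl.both h3 4 (by omega) S _ B hS rfl hB).1 using 2
    push_cast; ring

end Pool.Agent.Results.MP_8625e1_nt.ClosedForm
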