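import Pool.Agent.Work.MP_8625e1_nt.K.Main

/-! The sum of the cubed central binomial coefficients modulo `p ^ 3`, inert primes. -/

namespace Pool.Agent.Results.MP_8625e1_nt.InertCubes

open Finset

theorem result (p : ℕ) (hp : p.Prime) (h3 : 3 < p) (T B : ℤ)
    (hT : T = ∑ k ∈ range p, ((2 * k).choose k : ℤ) ^ 3)
    (hB : B = (3 * p / 7).choose (p / 7)) :
    (p % 7 = 3 → (p : ℤ) ^ 3 ∣ B ^ 2 * T + 11 * p ^ 2) ∧
      (p % 7 = 5 → (p : ℤ) ^ 3 ∣ 16 * B ^ 2 * T + 11 * p ^ 2) ∧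
      (p % 7 = 6 → (p : ℤ) ^ 3 ∣ 4 * B ^ 2 * T + 11 * p ^ 2) := by
  have := Fact.mk hp
  obtain ⟨w, hw⟩ : (p : ℤ) ^ 3 ∣
      T - ∑ k ∈ range ((p - 1) / 2 + 1), ((2 * k).choose k : ℤ) ^ 3 := by
    rw [hT, ← sum_range_add_sum_Ico _ (show (p - 1) / 2 + 1 ≤ p by omega), add_sub_cancel_left]
    refine dvd_sum fun k hk => pow_dvd_pow_of_dvd ?_ 3
    rw [mem_Ico] at hk
    exact_mod_cast hp.dvd_choose hk.2 (by omega) (by omega)
  have key : ∀ e : ℕ, p % 7 = 3 ∧ e = 1 ∨ p % 7 = 5 ∧ e = 16 ∨ p % 7 = 6 ∧ e = 4 →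
      (p : ℤ) ^ 3 ∣ e * B ^ 2 * T + 11 * p ^ 2 := fun e h => by
    obtain ⟨u, hu⟩ := (Pool.Agent.Work.MP_8625e1_nt.Kl.both h3 e h _ _ B rfl rfl hB).2
    exact ⟨u + e * B ^ 2 * w, by linear_combination hu + e * B ^ 2 * hw⟩
  exact ⟨fun h => by simpa using key 1 (by omega), fun h => by simpa using key 16 (by omega),
    fun h => by simpa using key 4 (by omega)⟩

end Pool.Agent.Results.MP_8625e1_nt.InertCubes
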